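import Mathlib
import Pool.Agent.H39R3.Tor.Pow
import Pool.Agent.H39R3.Tor.SUnit
import Pool.Agent.Helper203.Win.Multi

/-!
# All covers of tori with coefficients in short boxes have no integral points

Let `K` be an abelian number field, `S` a finite set of primes of `K`, `n ≥ 0` and `A` a finite nonempty set of exponents.
The covers `w ^ m = F_c(x)` of the torus `G_m ^ n`, `m ≥ 2`, `F_c = ∑_{s ∈ A} c_s x ^ s`, have integer coefficient vectors
`c ∈ ℤ ^ A`. Let `v_k ≥ 1` be a sequence with exponent of convergence at most `τ` (`τ = 0` for `b ^ k`, `τ = 1 / c` for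
`k ^ c`) and `θ < 1`. For all `α ∈ ℝ ^ A` outside a set of Hausdorff dimension at most `(#A - 1/5 + τ) / (1 - θ)` and all
large `k` NONE of the covers with `|c_s - α_s v_k| ≤ v_k ^ θ` for all `s ∈ A` has an `S`-integral point, and more
generally none has a point `(x, w)` with `w` in `K` and `x` in a given finitely generated subgroup of `(Kˣ) ^ n`. The same
holds for the covers `w ^ d + F_1(x) w ^ (d-1) + ⋯ + F_d(x) = 0` of degree `d ≥ 2`. The dimension is less than that of the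
whole space if `#A θ < 1/5 - τ`.

Proof: the bound `O(H ^ (#A - 1/5 + ε))` for the number of the coefficient vectors in `[-H, H] ^ A` whose covers have a
point (starting library, `Pool.Agent.H39R3.Tor`, used by the hand-in CoversOfTori), and a covering argument in `ℝ ^ A`.
-/

set_option autoImplicit false

namespace Pool.Agent.Results.MP_26d9ad_nt.CoversInWindows

open IsDedekindDomain NumberField

/-- the exponent of convergence of the sequence `v` is at most `τ` -/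
def ExpLe (v : ℕ → ℝ) (τ : ℝ) : Prop := ∀ t : ℝ, τ < t → Summable fun n : ℕ => (v n) ^ (-t)

/-- for all `α ∈ ℝ ^ ι` outside a set of Hausdorff dimension at most `(s + τ) / (1 - θ)` and all large `k` no `c ∈ ℤ ^ ι`
with `|c_j - α_j v_k| ≤ v_k ^ θ` for all `j` has the property `P` -/
def NoneInBoxes {ι : Type} [Fintype ι] (P : (ι → ℤ) → Prop) (v : ℕ → ℝ) (s τ θ : ℝ) : Prop :=
  ∃ X : Set (ι → ℝ), dimH X ≤ ENNReal.ofReal ((s + τ) / (1 - θ)) ∧ ∀ α : ι → ℝ, α ∉ X →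
    ∃ k0 : ℕ, ∀ k : ℕ, k0 ≤ k → ∀ c : ι → ℤ, (∀ j, |(c j : ℝ) - α j * v k| ≤ (v k) ^ θ) → ¬ P c

/-- the value at `x` of the Laurent polynomial `∑_{s ∈ A} c_s x ^ s` -/
def F {K : Type} [Field K] {n : ℕ} (A : Finset (Fin n → ℤ)) (c : A → ℤ) (x : Fin n → Kˣ) : K :=
  ∑ s : A, (c s : K) * ∏ k, (x k : K) ^ s.1 k

/-- For all `m ≥ 2` and all supports `A`, all sequences `v` and all `τ`, `θ`: unless `α ∈ ℝ ^ A` is in a set of dimension at
most `(#A - 1/5 + τ) / (1 - θ)`, none of the covers `w ^ m = F_c(x)` with `c` in the boxes around `α v_k` of side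
`2 v_k ^ θ`, `k` large, has a point with `x ∈ X` and `w ∈ K`. -/
def CyclicCovers (K : Type) [Field K] {n : ℕ} (X : Set (Fin n → Kˣ)) : Prop :=
  ∀ m : ℕ, 2 ≤ m → ∀ A : Finset (Fin n → ℤ), A.Nonempty →
    ∀ (v : ℕ → ℝ) (τ θ : ℝ), (∀ k, 1 ≤ v k) → 0 ≤ τ → ExpLe v τ → θ < 1 →
      NoneInBoxes (fun c : A → ℤ => ∃ x ∈ X, ∃ w : K, w ^ m = F A c x) v ((A.card : ℝ) - 1 / 5) τ θ

/-- The same for the covers `w ^ d + F_1(x) w ^ (d-1) + ⋯ + F_d(x) = 0`, `d ≥ 2`, with coefficient vectors in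
`ℝ ^ (A_1 ⊔ … ⊔ A_d)`. -/
def AllCovers (K : Type) [Field K] {n : ℕ} (X : Set (Fin n → Kˣ)) : Prop :=
  ∀ d : ℕ, 2 ≤ d → ∀ A : Fin d → Finset (Fin n → ℤ), (∀ i, (A i).Nonempty) →
    ∀ (v : ℕ → ℝ) (τ θ : ℝ), (∀ k, 1 ≤ v k) → 0 ≤ τ → ExpLe v τ → θ < 1 →
      NoneInBoxes (fun c : (Σ i : Fin d, A i) → ℤ => ∃ x ∈ X, ∃ w : K,
        w ^ d + ∑ i : Fin d, F (A i) (fun s => c ⟨i, s⟩) x * w ^ (d - 1 - i.1) = 0) v
          ((∑ i, ((A i).card : ℝ)) - 1 / 5) τ θ

theorem F_eq {K : Type} [Field K] {n : ℕ} (A : Finset (Fin n → ℤ)) (c : A → ℤ)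
    (x : Fin n → Kˣ) : F A c x = Pool.Agent.H39R3.Tor.lau A c x := by
  unfold F Pool.Agent.H39R3.Tor.lau Pool.Agent.H39R3.Tor.mono
  refine Finset.sum_congr rfl fun s _ => ?_
  rw [Units.coe_prod]
  congr 1
  exact Finset.prod_congr rfl fun k _ => by rw [Units.val_zpow_eq_zpow_val]

theorem none_of {ι : Type} [Fintype ι] (P : (ι → ℤ) → Prop) {s : ℝ} (hs : 0 ≤ s)
    (h : ∀ ε : ℝ, 0 < ε → ∃ C : ℝ, ∀ H : ℕ, 1 ≤ H →
      (Nat.card {c : ι → ℤ // (∀ k, |c k| ≤ H) ∧ P c} : ℝ) ≤ C * (H : ℝ) ^ (s + ε))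
    {v : ℕ → ℝ} {τ θ : ℝ} (hpos : ∀ n, 1 ≤ v n) (hτ : 0 ≤ τ) (hv : ExpLe v τ) (hθ : θ < 1) :
    NoneInBoxes P v s τ θ := by
  refine Pool.Agent.Helper203.Win.windowsZ {t : ι → ℤ | P t} hpos hτ hv hs hθ fun ε hε => ?_
  obtain ⟨C, hC⟩ := h ε hε
  refine ⟨C, fun H hH => ?_⟩
  have e : {t : ι → ℤ | t ∈ {t : ι → ℤ | P t} ∧ ∀ k, |t k| ≤ (H : ℤ)} =
      {t : ι → ℤ | (∀ k, |t k| ≤ (H : ℤ)) ∧ P t} := by
    ext t
    exact and_comm
  rw [e]
  exact hC H hH

/-- (1) None of the covers in the boxes has a point over a given finitely generated group `Γ`; (2) in particular none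
has an `S`-integral point, for every finite set `S` of primes of `K`. Here `K` is any number field contained in a
cyclotomic field. (3) The sequences `(k + 1) ^ c` and `b ^ k` have exponent of convergence `1 / c` and `0`. -/
theorem result :
    (∀ (K : Type) [Field K] [NumberField K] (M : ℕ), 0 < M →
      Nonempty (K →+* CyclotomicField M ℚ) → ∀ (n : ℕ) (Γ : Subgroup (Fin n → Kˣ)), Γ.FG →
        CyclicCovers K (Γ : Set (Fin n → Kˣ)) ∧ AllCovers K (Γ : Set (Fin n → Kˣ))) ∧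
    (∀ (K : Type) [Field K] [NumberField K] (M : ℕ), 0 < M →
      Nonempty (K →+* CyclotomicField M ℚ) → ∀ (n : ℕ) (S : Set (HeightOneSpectrum (𝓞 K))),
        S.Finite → CyclicCovers K {x : Fin n → Kˣ | ∀ k, x k ∈ S.unit K} ∧
          AllCovers K {x : Fin n → Kˣ | ∀ k, x k ∈ S.unit K}) ∧
    (∀ c : ℝ, 0 < c → ExpLe (fun k : ℕ => ((k : ℝ) + 1) ^ c) (1 / c)) ∧
    (∀ b : ℝ, 1 < b → ExpLe (fun k : ℕ => b ^ k) 0) := by
  have h1 : ∀ (K : Type) [Field K] [NumberField K] (M : ℕ), 0 < M →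
      Nonempty (K →+* CyclotomicField M ℚ) → ∀ (n : ℕ) (Γ : Subgroup (Fin n → Kˣ)), Γ.FG →
        CyclicCovers K (Γ : Set (Fin n → Kˣ)) ∧ AllCovers K (Γ : Set (Fin n → Kˣ)) := by
    intro K _ _ M hM hK n Γ hΓ
    constructor
    · intro m hm A hA v τ θ hpos hτ hv hθ
      have hA1 : (1 : ℝ) ≤ A.card := by exact_mod_cast hA.card_pos
      refine none_of _ (by linarith) (fun ε hε => ?_) hpos hτ hv hθ
      simp only [F_eq]
      exact Pool.Agent.H39R3.Tor.mainC K M hM hK n m hm A hA Γ hΓ ε hε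
    · intro d hd A hA v τ θ hpos hτ hv hθ
      have hA1 : (1 : ℝ) ≤ ∑ i, ((A i).card : ℝ) := by
        have h0 : ((A ⟨0, by omega⟩).card : ℝ) ≤ ∑ i, ((A i).card : ℝ) :=
          Finset.single_le_sum (f := fun i => ((A i).card : ℝ)) (fun i _ => Nat.cast_nonneg _)
            (Finset.mem_univ (⟨0, by omega⟩ : Fin d))
        have h2 : (1 : ℝ) ≤ (A ⟨0, by omega⟩).card := by exact_mod_cast (hA ⟨0, by omega⟩).card_pos
        linarith
      refine none_of _ (by linarith) (fun ε hε => ?_) hpos hτ hv hθ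
      simp only [F_eq]
      exact Pool.Agent.H39R3.Tor.mainT K M hM hK n d hd A hA Γ hΓ ε hε
  refine ⟨h1, fun K _ _ M hM hK n S hS => ?_, Pool.Agent.Y854.GM.expLe_pow, Pool.Agent.Y854.GM.expLe_geom⟩
  have h2 := h1 K M hM hK n _ (Pool.Agent.H39R3.Tor.sPoints_fg K S hS n)
  have h3 : ((Pool.Agent.H39R3.Tor.sPoints K S n : Subgroup (Fin n → Kˣ)) : Set (Fin n → Kˣ)) =
      {x : Fin n → Kˣ | ∀ k, x k ∈ S.unit K} := by
    ext x
    simp [Pool.Agent.H39R3.Tor.sPoints, Subgroup.mem_pi]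
  rw [h3] at h2
  exact h2

end Pool.Agent.Results.MP_26d9ad_nt.CoversInWindows
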