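import Pool.Agent.V1153.UR.LogB

/-!
# Integral points given by iterated recurrences on varieties of log general type

The varieties are complements `U` of a hypersurface `Q = 0` in closed subsets of projective space;
all projective and all affine varieties are of this form.

A family `x(h)`, `h ∈ H`, of points of `U`, for a group `H`, is given by iterated recurrences of type
`(s, r, e)` if the coordinates of the vectors `x(h)` and `1 / Q(x(h))` are polynomials of degree at
most `e` in each of the entries of invertible matrices `X_1(h), ..., X_s(h)` of size `r` and their
inverses, such that for each `g` the entries of `X_l(g h) X_l(h)⁻¹` are for all `h` such polynomials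
in the entries of `X_i(h)` and `X_i(h)⁻¹`, `i < l`.

(A) If all subvarieties of `U` of positive dimension, over the complex numbers, are of log general
type, then the number of points in each family of points of `U(L)` of type `(s, r, e)` is bounded by a
number which depends only on `s, r, e`, the dimension of the projective space and the degrees of the
equations of `U`; here `L` is any field which can be embedded in the complex numbers.

(B) Let `U` be integral, over the complex numbers. The following are equivalent:
(1) `U` is not covered by curves of the punctured line;
(2) for every dominant map `V ⇢ U` given by forms, from a variety `V` of the same kind, such that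
`Q` has no zeros on its image, for instance the identity map of `U`, and for every type `(s, r, e)`
there are a proper closed subset of `V` and a number `B` such that in all families of points of `V` of
this type the points outside of the closed subset have at most `B` different images in `U`;
(3) for every `e` there is one proper closed subset of `U` such that all sequences of integral points
of `U` over finitely generated rings with homogeneous coordinates which are polynomials of degree at
most `e` in `u ^ h` and `u ^ (-h)`, `h ∈ ℤ`, have only finitely many points outside of it.
These properties hold if `U` is of log general type, and if there is a proper closed subset of `U`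
which contains, for each finitely generated ring, all but finitely many integral points.
-/

set_option autoImplicit false

namespace Pool.Agent.Results.MP_26d9ad_nt.RecurrentIntegralPoints

open MvPolynomial Pool.Agent.V1153.UR Pool.Agent.V1153.IT
open Pool.Agent.V1153.UG (GmRuled not_ruled_of_thin thin_of_not_ruled not_ruled_of_lgt)
open Pool.Agent.TH143.GT (FunField)
open Pool.Agent.W602.GT (LogGeneralType)
open Pool.Agent.W603.GR (OffQ)

/-- For every dominant map to the complement of `Q = 0` in the variety with the ideal `J` and every
type of iterated recurrences there are a proper closed subset of the source and a number `B` such that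
for all groups and all families of points of the source of this type the points outside of the closed
subset have at most `B` different images. -/
def IntegralImages {m : ℕ} (J : Ideal (MvPolynomial (Fin (m + 1)) ℂ))
    (Q : MvPolynomial (Fin (m + 1)) ℂ) : Prop :=
  ∀ (n : ℕ) (I : Ideal (MvPolynomial (Fin (n + 1)) ℂ)), I.IsPrime →
    ∀ (Q' : MvPolynomial (Fin (n + 1)) ℂ) (g : Fin (m + 1) → MvPolynomial (Fin (n + 1)) ℂ) (δ : ℕ),
      DomMor I Q' g δ J Q →
      ∀ s r e : ℕ, ∃ (G : MvPolynomial (Fin (n + 1)) ℂ) (B : ℕ), (∃ d, G.IsHomogeneous d) ∧
        G ∉ I ∧ (∀ v, eval v G ≠ 0 → (fun i => eval v (g i)) ≠ 0) ∧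
        ∀ (H : Type) [Group H] (x : H → Fin (n + 1) → ℂ),
          (∀ h, ∀ F ∈ I, (∃ d, F.IsHomogeneous d) → eval (x h) F = 0) → IterOff s r e Q' x →
            (imgOff g G x).encard ≤ (B : ℕ∞)

/-- (A) For all `n` and `D` there is a function `B` such that for all fields `L` with an embedding `τ`
in `ℂ` and all complements `U` of a hypersurface `Q = 0` of degree at most `D` in a closed subset of
`ℙⁿ` given by forms of degree at most `D` over `L`: if all integral closed subvarieties of `U_τ` with
more than one point are of log general type, then the families of points of `U(L)` given by iterated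
recurrences of type `(s, r, e)` have at most `B s r e` different points.

(B) For the complement `U` of `Q = 0` in the integral projective variety over `ℂ` with the ideal `J`
the following are equivalent: `U` is not covered by curves of the punctured line; for all dominant maps
from `V` to `U` and all types, the points outside of one proper closed subset of `V` in the families
of points of `V` of this type have a bounded number of images in `U`; for every `e` there is one proper
closed subset outside of which the sequences of integral points over finitely generated rings, given
by polynomials of degree at most `e` in `u ^ h` and `u ^ (-h)`, have only finitely many points. This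
holds if `U` is of log general type, or if a proper closed subset contains all but finitely many
integral points over each finitely generated ring. -/
theorem result :
    (∀ n D : ℕ, ∃ B : ℕ → ℕ → ℕ → ℕ, ∀ (L : Type) [Field L] (τ : L →+* ℂ)
      (E : Set (MvPolynomial (Fin (n + 1)) L)) (Q : MvPolynomial (Fin (n + 1)) L) (q : ℕ), q ≤ D →
      Q.IsHomogeneous q → (∀ F ∈ E, ∃ a ≤ D, F.IsHomogeneous a) →
      AllLogGeneral (Ideal.span (map τ '' E)) (map τ Q) q →
      ∀ (s r e : ℕ) (H : Type) [Group H] (x : H → Fin (n + 1) → L),
        (∀ h, ∀ F ∈ E, eval (x h) F = 0) → IterOff s r e Q x →
          {p : Projectivization L (Fin (n + 1) → L) | ∃ (h : H) (h0 : x h ≠ 0),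
            p = Projectivization.mk L (x h) h0}.encard ≤ (B s r e : ℕ∞)) ∧
    ∀ (m : ℕ) (J : Ideal (MvPolynomial (Fin (m + 1)) ℂ)), J.IsPrime →
      ∀ (Q : MvPolynomial (Fin (m + 1)) ℂ) (q : ℕ), Q.IsHomogeneous q →
        List.TFAE [¬ GmRuled J Q, IntegralImages J Q, IntPowersFinite J Q] ∧
        (((∃ (K : Type) (_ : Field K) (_ : Algebra ℂ K) (w : ℕ) (y : Fin (m + 1) → K),
            FunField J Q K w y ∧ LogGeneralType ℂ K w (OffQ Q q y)) ∨ PseudoArithmetic J Q) →
          ¬ GmRuled J Q) := by
  refine ⟨all_bound, fun m J hJ Q q hQ => ?_⟩
  have h31 : IntPowersFinite J Q → ¬ GmRuled J Q := fun h => not_ruled_of_thin (h.gmThin hQ)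
  refine ⟨?_, ?_⟩
  · tfae_have 1 → 2 := by
      intro h n I hI Q' g δ hg s r e
      exact img_bound_log hI hJ hQ (thin_of_not_ruled hJ hQ h) hg s r e
    tfae_have 2 → 3 := by
      intro h e
      by_cases hX : ∃ i, (X i : MvPolynomial (Fin (m + 1)) ℂ) ∉ J
      · obtain ⟨G, B, h1, h2, h3, h4⟩ := h m J hJ Q X 1 (domMor_id hX) 1 1 e
        refine ⟨G, h1, h2, fun T x _ _ hx hit => ?_⟩
        refine (Set.finite_of_encard_le_coe (h4 _ x hx hit)).subset ?_
        rintro P ⟨h, h0, h5, rfl⟩
        have h6 : (fun i => eval (x h) (X i : MvPolynomial (Fin (m + 1)) ℂ)) = x h := by
          funext i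
          rw [eval_X]
        refine ⟨h, by rw [h6]; exact h0, ?_, ?_⟩
        · rw [← MvPolynomial.coe_aeval_eq_eval]
          exact h5
        · congr 1
          exact h6.symm
      · push Not at hX
        refine ⟨1, ⟨0, isHomogeneous_one _ _⟩, fun h1 =>
          hJ.ne_top ((Ideal.eq_top_iff_one J).2 h1), fun T x _ _ hx _ => ?_⟩
        refine Set.finite_empty.subset ?_
        rintro P ⟨h, h0, -, -⟩
        exfalso
        apply h0
        funext i
        have h1 := hx h (X i) (hX i) ⟨1, isHomogeneous_X ℂ i⟩
        rwa [eval_X] at h1
    tfae_have 3 → 1 := h31
    tfae_finish
  · rintro (⟨K, _, _, w, y, hy, hL⟩ | h)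
    · exact not_ruled_of_lgt hQ hy hL
    · exact h31 h.powers

end Pool.Agent.Results.MP_26d9ad_nt.RecurrentIntegralPoints
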