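import Pool.Agent.W659.SA.Final
import Pool.Agent.H107.SemiNear2

/-!
# Integral points of subvarieties of `A × 𝔾_m ^ s × ℙⁿ` above the rational points of `ℙⁿ` near a given point

`𝕜` is `ℝ` or `ℂ`. `K` runs over all number fields contained in `𝕜`, `A = E_1 × … × E_r` over the products of elliptic
curves `y² = x³ + a_i x` and `y² = x³ + b_i` with `a_i, b_i ∈ ℤ`, `Γ` over the finitely generated subgroups of `Kˣ`, for
example the groups of `S`-units for all finite sets `S` of primes, and `X` over ALL closed subvarieties of `A × 𝔾_m ^ s × ℙⁿ`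
over `K`, for all `s`, which contain no fibre `{(P, u)} × ℙⁿ`. This is so for `n ≥ 1` if all subvarieties of `X` are of
log-general type, the condition in the problem (the fibre is covered by rational curves). The `S`-integral points of `X` are
(for large `S`) points `(P, u, y)` with `P ∈ A(K)`, `u` a vector of `S`-units and `y ∈ ℙⁿ(K)`.

**Theorem.** There is one set `E ⊆ 𝕜ⁿ` of Hausdorff dimension at most `[𝕜 : ℝ] (n - 1)` such that for all `z` outside of `E`,
all `K`, `A`, `Γ`, all `X` and all `w > 0` there are only finitely many points `y ∈ Kⁿ` with `‖y - z‖ ≤ H(y) ^ (-w)` such that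
`X` has a point `(P, u, (1 : y))` above `y` with `P ∈ A(K)` and `u ∈ Γ ^ s`.

So for `n = 1` the exceptional set has dimension zero. The bound is sharp in general (`X = A × 𝔾_m ^ s × L` with a hyperplane
`L`). Without a hypothesis on the approximation (`w = 0`) the finiteness is a part of the conjecture of Lang and Vojta.

Proof: by the theorem `Pool.Agent.W659.SA.hs` of the library (for `s = 0`: the starting file HyperbolicSubvarieties of
MP_627a61_nt) the points `y` of height at most `T` lie on `O(T ^ ε)` hypersurfaces of bounded degree. The neighbourhoods of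
size `T ^ (-w)` of the parts near the real or complex points of the hypersurfaces have a covering which gives the dimension
`[𝕜 : ℝ] (n - 1) + O(ε)` (a theorem of helper264, `Pool.Agent.Helper264.NT.cov_zeros`), and countable unions do not change
the dimension.
-/

set_option autoImplicit false

namespace Pool.Agent.Results.MP_26d9ad_nt.SubvarietiesNearPoints

open NumberField Pool.Agent.W659.SA Pool.Agent.H107.Semi
open scoped ENNReal

/-- There is a set `E ⊆ 𝕜ⁿ` of dimension at most `[𝕜 : ℝ] (n - 1)` such that for all `z` outside of `E`, all number fields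
`K ⊆ 𝕜`, all closed subvarieties `X` (with equations `G e` over `𝓞 K`) of `A × 𝔾_m ^ s × ℙⁿ` without full fibres, all
finitely generated `Γ ⊆ Kˣ` and all `w > 0`, only finitely many `y ∈ Kⁿ` with `‖y - z‖ ≤ H(y) ^ (-w)` have a point
`(P, u, (1 : y))` of `X` with `P ∈ A(K)`, `u ∈ Γ ^ s` above them. -/
theorem result (𝕜 : Type) [RCLike 𝕜] (n : ℕ) :
    ∃ E : Set (Fin n → 𝕜), dimH E ≤ ((Module.finrank ℝ 𝕜 * (n - 1) : ℕ) : ℝ≥0∞) ∧ ∀ z ∉ E,
      ∀ (K : IntermediateField ℚ 𝕜) [NumberField K] (r s q : ℕ) (a b : Fin r → ℤ)
        (G : Fin q → Pol (𝓞 K) r s (n + 1)), NoFullFibre a b G →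
      ∀ Γ : Subgroup (K : Type)ˣ, Γ.FG → ∀ w : ℝ, 0 < w →
        {y : Fin n → K | Above a b Γ G (Pool.Agent.H107.Hyp.vec y) ∧
          ‖(fun i => (y i : 𝕜)) - z‖ ≤ (Pool.Agent.H107.Hyp.pt y).mulHeight ^ (-w)}.Finite :=
  near_hs hs 𝕜 n

end Pool.Agent.Results.MP_26d9ad_nt.SubvarietiesNearPoints
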