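import Mathlib
import Pool.Agent.Y215.AF.LogConv

set_option autoImplicit false

/-!
# MP_26d9ad_nt, Q1: points of affine varieties which are sums of units, one exceptional set

Let `V` be an irreducible affine variety `F = 0` in affine `n`-space over a number field `k` (the
ideal of the `F i` is prime), and let `d` be a bound for the degrees of the polynomials `F i`.

The following are equivalent:

* `V` is not dominated by punctured lines: no nonconstant map from the punctured line over an
  extension field of `k`, given by Laurent polynomials, passes through a generic point of `V`. This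
  holds if `V` is of log general type;
* for every `r` there is a proper closed subset of `V`, given by one polynomial `G` and
  INDEPENDENT of the number field `L` and of the finite set `S` of primes, such that, for all number
  fields `L ⊇ k` and all `S`, only finitely many points of `V(L)` outside of `G = 0` have
  coordinates which are sums of at most `r` `S`-units. This is the non-density form of the
  conjecture, in its strong form, for the integral points which are sums of `r` units;
* for every `r` there is such a `G` for which the points `x` of `V` over `Qbar` outside of `G = 0` of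
  the form `x = ∑_{j < r} u_j V_j`, where the `u_j` have a power in a finitely generated group `Γ` of
  algebraic numbers and the `V_j` are ARBITRARY vectors of algebraic numbers, satisfy
  `h(1 : x) ≤ C (1 + h(1 : V))` with `C = C(Γ)` independent of the vectors and of their field of
  definition; so those over a given number field with `h(1 : V) ≤ B` are finite in number; and the
  number of all algebraic points of the form `∑ u_j s_j V_j` with `h(1 : s) < eps d r` is at most
  `A (1 + h(1 : V)) ^ e` with `A` and `e` depending on `Γ` only (see `Off`).
-/

namespace Pool.Agent.Results.MP_26d9ad_nt.UnitSums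

open MvPolynomial Pool.Agent.Y215.AF

/-- The finiteness statements for the points of `F = 0` off `G = 0` which are sums of `r` terms: the
bound `h(1 : x) ≤ C (1 + h(1 : V))` for the heights, finiteness over number fields for vectors of
bounded height, finiteness of the points whose coordinates are sums of at most `r` `S`-units, and
the bound `A (1 + h(1 : V)) ^ e` for the number of all algebraic points `∑ u_j s_j V_j` with
`h(1 : s) < eps d r`. -/
def Off {k : Type} [Field k] {N n : ℕ} (F : Fin N → MvPolynomial (Fin n) k) (d : ℕ)
    (G : MvPolynomial (Fin n) k) (r : ℕ) : Prop :=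
  HeightsOff F G r ∧ RationalOff F G r ∧ UnitSumOff F G r ∧ 0 < eps d r ∧ NearOff (eps d r) F G r

theorem off_of_curCond {k : Type} [Field k] [NumberField k] {N n : ℕ}
    (F : Fin N → MvPolynomial (Fin n) k) (G : MvPolynomial (Fin n) k) (d : ℕ) (hd1 : 1 ≤ d)
    (hd : ∀ i, (F i).totalDegree ≤ d) (r : ℕ) (h : CurCond F d G r)
    (h' : CurCond F d G (n * r)) : Off F d G r := by
  have h1 : HeightsOff F G r := heightsOff F d hd G r h
  have h2 : HeightsOff F G (n * r) := heightsOff F d hd G (n * r) h'
  exact ⟨h1, rationalOff F G r h1, unitSumOff F G r (rationalOff F G (n * r) h2),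
    eps_pos d r hd1, nearOff_main F d hd1 hd G r h⟩

theorem result (k : Type) [Field k] [NumberField k] (n N : ℕ)
    -- the irreducible affine variety, given by polynomials of degree at most `d`
    (F : Fin N → MvPolynomial (Fin n) k) (d : ℕ) (hd1 : 1 ≤ d) (hd : ∀ i, (F i).totalDegree ≤ d)
    (hprime : (Ideal.span (Set.range F)).IsPrime) :
    List.TFAE [¬ GmUniruled (Ideal.span (Set.range F)),
      ∀ r, ∃ G, G ∉ Ideal.span (Set.range F) ∧ UnitSumOff F G r,
      ∀ r, ∃ G, G ∉ Ideal.span (Set.range F) ∧ Off F d G r] := by
  tfae_have 1 → 3 := by
    intro hnu r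
    obtain ⟨G1, hG1, h1⟩ := exists_hyperA (Set.range F) hprime hnu d hd1
      (by rintro _ ⟨i, rfl⟩; exact hd i) r
    obtain ⟨G2, hG2, h2⟩ := exists_hyperA (Set.range F) hprime hnu d hd1
      (by rintro _ ⟨i, rfl⟩; exact hd i) (n * r)
    refine ⟨G1 * G2, fun hmem => ?_, off_of_curCond F (G1 * G2) d hd1 hd r ?_ ?_⟩
    · rcases hprime.mem_or_mem hmem with h | h
      · exact hG1 h
      · exact hG2 h
    · intro L _ _ c l hz hc
      rw [map_mul, h1 L c l (by rintro _ ⟨i, rfl⟩; exact hz i) hc, zero_mul]
    · intro L _ _ c l hz hc
      rw [map_mul, h2 L c l (by rintro _ ⟨i, rfl⟩; exact hz i) hc, mul_zero]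
  tfae_have 3 → 2 := by
    intro h r
    obtain ⟨G, hG, hO⟩ := h r
    exact ⟨G, hG, hO.2.2.1⟩
  tfae_have 2 → 1 := by
    intro h hu
    obtain ⟨r, hr⟩ := conv_gm F hu
    obtain ⟨G, hG, hU⟩ := h r
    exact hr G hG hU
  tfae_finish

end Pool.Agent.Results.MP_26d9ad_nt.UnitSums
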